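import Pool.Agent.Y649.DG.Stm2

set_option autoImplicit false

/-! # Formulas with determinant gates: 3SUM (DG-3SUM) -/

namespace Pool.Agent.Y672.DG.ThreeSum

open Finset Pool.Agent.TH697.Form Pool.Agent.TH697.Row Pool.Agent.TH697.Form.ThreeSum
open Pool.Agent.TH457.Ary.ZeroSum Pool.Agent.TH457.Ary.ThreeSum
open Pool.Agent.Y649.DG
open Pool.Agent.Y638.RF.ZeroSum (asks)

/-- the arithmetic -/
theorem arith {n g c w s : ℝ} (hg : 8 ≤ g) (hc : 1 ≤ c) (hw : 1 ≤ w)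
    (h : n ^ 2 * (n * g * (1 / 7)) ≤ 360000 * w ^ 2 * (29 * c * w * g) * s ^ 2) :
    n ^ 3 ≤ 80000000 * c * w ^ 3 * s ^ 2 := by
  have h4 : g * n ^ 3 ≤ g * (73080000 * c * w ^ 3 * s ^ 2) := by
    have e1 : n ^ 2 * (n * g * (1 / 7)) = g * n ^ 3 / 7 := by ring
    have e2 : 360000 * w ^ 2 * (29 * c * w * g) * s ^ 2 =
        g * (73080000 * c * w ^ 3 * s ^ 2) / 7 := by ring
    rw [e1, e2] at h
    linarith
  have h5 := le_of_mul_le_mul_left h4 (by linarith)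
  have h6 : 0 ≤ c * w ^ 3 * s ^ 2 := by positivity
  nlinarith

/-- the bound for the logarithms -/
theorem arithL {g c w L l : ℝ} (hg : 8 ≤ g) (hc : 1 ≤ c) (hw : 1 ≤ w)
    (hl : l ≤ 9 / 8 * g) (hL : L ≤ 4 / 3 * c * g) :
    1 + 5 * (5 * l) + (w - 1) * L ≤ 29 * c * w * g := by
  have h3 : (w - 1) * L ≤ (w - 1) * (4 / 3 * c * g) := mul_le_mul_of_nonneg_left hL (by linarith)
  have h4 : 1 + 5 * (5 * l) ≤ 29 * g := by linarith
  have h5 : g ≤ c * g := by nlinarith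
  have h6 : 0 ≤ (w - 1) * (c * g) := by
    apply mul_nonneg (by linarith)
    positivity
  nlinarith

theorem threesum (h : S_BOUND) : S_3SUM := by
  intro n c w hn hc hw Ω _ μ hμ s F hs hF
  classical
  have hw' : (1 : ℝ) ≤ w := by exact_mod_cast hw
  have hc' : (1 : ℝ) ≤ c := by exact_mod_cast hc
  have hn' : (1000 : ℝ) ≤ n := by exact_mod_cast hn
  by_cases hsn : n ^ 2 ≤ s
  · have h1 : (n : ℝ) ^ 2 ≤ s := by exact_mod_cast hsn
    have h2 : (n : ℝ) ^ 3 ≤ (s : ℝ) ^ 2 := by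
      calc (n : ℝ) ^ 3 ≤ ((n : ℝ) ^ 2) ^ 2 := by
            rw [← pow_mul]
            exact pow_le_pow_right₀ (by linarith) (by norm_num)
        _ ≤ (s : ℝ) ^ 2 := pow_le_pow_left₀ (by positivity) h1 2
    have h3 : (1 : ℝ) ≤ w ^ 3 := one_le_pow₀ hw'
    have h4 : (1 : ℝ) ≤ 80000000 * c * w ^ 3 := by nlinarith
    have h5 : 0 ≤ (s : ℝ) ^ 2 := by positivity
    nlinarith
  obtain ⟨b, hb, hL, hb2⟩ := params (n := n) (by omega)
  have hM : 4 * n ^ 2 * (5 * s + 1) + 2 + s ≤ n ^ 5 := by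
    have h1 : s < n ^ 2 := by omega
    have h2 : 4 * n ^ 2 * (5 * s + 1) ≤ 4 * n ^ 2 * (5 * n ^ 2) := Nat.mul_le_mul_left _ (by omega)
    have h3 : 4 * n ^ 2 * (5 * n ^ 2) = 20 * n ^ 4 := by ring
    have h4 : n ^ 2 ≤ n ^ 4 := Nat.pow_le_pow_right (by omega) (by norm_num)
    have h5 : 1000 * n ^ 4 ≤ n ^ 5 := by
      calc 1000 * n ^ 4 ≤ n * n ^ 4 := Nat.mul_le_mul_right _ (by omega)
        _ = n ^ 5 := by ring
    have h6 : 1 ≤ n ^ 4 := Nat.one_le_pow _ _ (by omega)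
    omega
  have hg : (8 : ℝ) ≤ Nat.log 2 n := by exact_mod_cast hL
  have hLL : 1 + 5 * Real.logb 2 ((n ^ 5 : ℕ) : ℝ) +
      ((w : ℝ) - 1) * Real.logb 2 (((2 * n) ^ c : ℕ) : ℝ) ≤ 29 * c * w * (Nat.log 2 n : ℕ) := by
    rw [Nat.cast_pow n 5, Real.logb_pow]
    refine arithL (l := Real.logb 2 n) hg hc' hw' ?_ (logb_q (by omega) hL)
    have h1 := logb_n (n := n) (by omega)
    linarith
  have h7 := bound_sq h μ hμ F (Valid n n) (zeroSum n) hF s hs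
    (Nat.one_le_pow _ _ (by omega)) hw (n ^ 2) (n ^ 5) hM 0 (by norm_num)
    ((univ : Finset (Fin n)).map Function.Embedding.some) (T := Fin (n / 2) × Fin b) (by
      intro a ha
      rw [mem_map] at ha
      obtain ⟨i, -, rfl⟩ := ha
      exact asks hb (by omega) i) ((n : ℝ) * (Nat.log 2 n : ℕ) * (1 / 7)) (by nlinarith) (by
      have := card_T (n := n) (by omega) hb2
      linarith) (29 * c * w * (Nat.log 2 n : ℕ)) (by
      push_cast at hLL ⊢
      exact hLL)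
  rw [card_map, card_univ, Fintype.card_fin] at h7
  exact arith hg hc' hw' h7

end Pool.Agent.Y672.DG.ThreeSum
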